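import Pool.Agent.H85.TU.Targets

/-! Row DEC of the board `tum_modules`. -/

set_option autoImplicit false

open Set Pool.Agent.H85.TU

namespace Pool.Agent.H67.TU

private theorem ad_lt {d : ℕ → Bool} {i j : ℕ} (h : i < 6) : AD d i j ↔ i < 3 := by
  unfold AD
  rw [if_pos h]

private theorem ad_lt' {d : ℕ → Bool} {i j : ℕ} (h : 6 ≤ i) (h' : j < 6) :
    AD d i j ↔ j < 3 := by
  unfold AD
  rw [if_neg (by omega), if_pos h']

private theorem ad_six {d : ℕ → Bool} (j : ℕ) : AD d 6 (j + 6) ↔ d j = true := by
  unfold AD
  rw [if_neg (by omega), if_neg (by omega), if_pos rfl, Nat.add_sub_cancel]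

private theorem ad_big {d : ℕ → Bool} {i j : ℕ} (h : 6 < i) (h' : 6 ≤ j) :
    AD d i j ↔ j = i ∨ j = i + 1 := by
  unfold AD
  rw [if_neg (by omega), if_neg (by omega), if_neg (by omega)]

theorem pf_DEC : T_DEC := by
  intro P P' R R' e f e' f' d d' he hf hef hC hC' h hR h8
  obtain ⟨c1, c2, c3⟩ := hC
  obtain ⟨c1', c2', c3'⟩ := hC'
  have claim : ∀ n, h (e n) = e' n ∧ h (f n) = f' n := by
    intro n
    induction n using Nat.strong_induction_on with
    | _ n ih =>
    rcases Nat.lt_or_ge n 8 with hn | hn
    · exact h8 n hn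
    obtain ⟨m, rfl⟩ : ∃ m, n = m + 1 := ⟨n - 1, by omega⟩
    have hfs : h (f (m + 1)) = f' (m + 1) := by
      have h1 : ∃ j, h (f (m + 1)) = f' j := by
        by_contra hno
        push Not at hno
        refine c2' (h (f (m + 1))) hno ?_ ?_
        · intro i hi heq
          rw [← (h8 i hi).1] at heq
          exact hef i (m + 1) (h.injective heq).symm
        · have hp : ∀ i, i < 6 → (R' (e' i) (h (f (m + 1))) ↔ i < 3) := by
            intro i hi
            rw [← (h8 i (by omega)).1, hR, c1, ad_lt hi]
          exact ⟨(hp 0 (by omega)).2 (by omega), (hp 1 (by omega)).2 (by omega),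
            (hp 2 (by omega)).2 (by omega), fun x => absurd ((hp 3 (by omega)).1 x) (by omega),
            fun x => absurd ((hp 4 (by omega)).1 x) (by omega),
            fun x => absurd ((hp 5 (by omega)).1 x) (by omega)⟩
      obtain ⟨j, hj⟩ := h1
      have h2 : m + 1 ≤ j := by
        by_contra hlt
        rw [← (ih j (by omega)).2] at hj
        have := hf (h.injective hj)
        omega
      have h3 : R (e m) (f (m + 1)) := by
        rw [c1, ad_big (by omega) (by omega)]
        exact Or.inr rfl
      have h4 : R' (e' m) (f' j) := by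
        rw [← hj, ← (ih m (by omega)).1, hR]
        exact h3
      rw [c1', ad_big (by omega) (by omega)] at h4
      have h5 : j = m + 1 := by omega
      rw [hj, h5]
    refine ⟨?_, hfs⟩
    have h1 : ∃ i, h (e (m + 1)) = e' i := by
      by_contra hno
      push Not at hno
      refine c3' (h (e (m + 1))) hno ?_ ?_
      · intro j hj heq
        rw [← (h8 j hj).2] at heq
        exact hef (m + 1) j (h.injective heq)
      · have hp : ∀ j, j < 6 → (R' (h (e (m + 1))) (f' j) ↔ j < 3) := by
          intro j hj
          rw [← (h8 j (by omega)).2, hR, c1, ad_lt' (by omega) hj]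
        exact ⟨(hp 0 (by omega)).2 (by omega), (hp 1 (by omega)).2 (by omega),
          (hp 2 (by omega)).2 (by omega), fun x => absurd ((hp 3 (by omega)).1 x) (by omega),
          fun x => absurd ((hp 4 (by omega)).1 x) (by omega),
          fun x => absurd ((hp 5 (by omega)).1 x) (by omega)⟩
    obtain ⟨i, hi⟩ := h1
    have h2 : m + 1 ≤ i := by
      by_contra hlt
      rw [← (ih i (by omega)).1] at hi
      have := he (h.injective hi)
      omega
    have h3 : R (e (m + 1)) (f (m + 1)) := by
      rw [c1, ad_big (by omega) (by omega)]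
      exact Or.inl rfl
    have h4 : R' (e' i) (f' (m + 1)) := by
      rw [← hi, ← hfs, hR]
      exact h3
    rw [c1', ad_big (by omega) (by omega)] at h4
    have h5 : i = m + 1 := by omega
    rw [hi, h5]
  funext j
  have h1 : d j = true ↔ d' j = true := by
    rw [← ad_six (d := d) j, ← ad_six (d := d') j, ← c1, ← c1', ← (claim 6).1,
      ← (claim (j + 6)).2, hR]
  exact Bool.eq_iff_iff.2 h1

end Pool.Agent.H67.TU
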