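import Pool.Agent.H85.TU.Targets
import Pool.Agent.H71.CC

/-! Row PRF of the board `tum_modules`. -/

set_option autoImplicit false

open Set Pool.Agent.H85.TU

namespace Pool.Agent.H67.TU

private theorem meas_eval {α β γ : Type} [MeasurableSpace α] [Countable γ] [MeasurableSpace γ]
    [MeasurableSingletonClass γ] [MeasurableSpace β] (k : α → γ) (hk : Measurable k)
    (φ : α → γ → β) (hφ : ∀ w, Measurable fun a => φ a w) : Measurable (fun a => φ a (k a)) := by
  intro s hs
  have h1 : (fun a => φ a (k a)) ⁻¹' s = ⋃ w, (k ⁻¹' {w}) ∩ ((fun a => φ a w) ⁻¹' s) := by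
    ext a
    simp
  rw [h1]
  exact MeasurableSet.iUnion fun w => (hk (measurableSet_singleton w)).inter (hφ w hs)

private theorem meas_eq {α β : Type} [MeasurableSpace α] [MeasurableSpace β]
    [StandardBorelSpace β] {f g : α → β} (hf : Measurable f) (hg : Measurable g) :
    MeasurableSet {x | f x = g x} := by
  letI := upgradeStandardBorel β
  exact measurableSet_eq_fun hf hg

theorem pf_PRF : T_PRF := by
  intro ι _ ar D _ _ A F hF hA hcount
  let R : Set ((ℕ → Bool) × (ℕ → Bool)) := {p | Iso (F p.2) (F p.1)}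
  let M : Set (((ℕ → Bool) × (ℕ → Bool)) × ((ℕ → ℕ) × (ℕ → ℕ))) :=
    {q | (∀ n, q.2.2 (q.2.1 n) = n) ∧ (∀ n, q.2.1 (q.2.2 n) = n) ∧
      ∀ i v, F q.1.1 i (q.2.1 ∘ v) = F q.1.2 i v}
  have hFi : ∀ i v, Measurable (fun d => F d i v) := by
    intro i v
    exact (measurable_pi_apply v).comp ((measurable_pi_apply i).comp hF)
  have hM : MeasurableSet M := by
    have m1 : ∀ n : ℕ, Measurable
        (fun q : ((ℕ → Bool) × (ℕ → Bool)) × ((ℕ → ℕ) × (ℕ → ℕ)) => q.2.1 n) := fun n =>
      (measurable_pi_apply n).comp (measurable_fst.comp measurable_snd)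
    have m2 : ∀ n : ℕ, Measurable
        (fun q : ((ℕ → Bool) × (ℕ → Bool)) × ((ℕ → ℕ) × (ℕ → ℕ)) => q.2.2 n) := fun n =>
      (measurable_pi_apply n).comp (measurable_snd.comp measurable_snd)
    have hMe : M = (⋂ n, {q | q.2.2 (q.2.1 n) = n}) ∩ ((⋂ n, {q | q.2.1 (q.2.2 n) = n}) ∩
        ⋂ i, ⋂ v, {q | F q.1.1 i (q.2.1 ∘ v) = F q.1.2 i v}) := by
      ext q
      simp only [M, mem_setOf_eq, mem_inter_iff, mem_iInter]
    rw [hMe]
    refine MeasurableSet.inter ?_ (MeasurableSet.inter ?_ ?_)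
    · refine MeasurableSet.iInter fun n => ?_
      exact meas_eq (meas_eval _ (m1 n) (fun q w => q.2.2 w) m2) measurable_const
    · refine MeasurableSet.iInter fun n => ?_
      exact meas_eq (meas_eval _ (m2 n) (fun q w => q.2.1 w) m1) measurable_const
    · refine MeasurableSet.iInter fun i => MeasurableSet.iInter fun v => ?_
      refine meas_eq ?_ ((hFi i v).comp (measurable_snd.comp measurable_fst))
      refine meas_eval (fun q : ((ℕ → Bool) × (ℕ → Bool)) × ((ℕ → ℕ) × (ℕ → ℕ)) => q.2.1 ∘ v)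
        ?_ (fun q w => F q.1.1 i w) (fun w => (hFi i w).comp (measurable_fst.comp measurable_fst))
      exact measurable_pi_lambda _ fun j => m1 (v j)
  have hR : MeasureTheory.AnalyticSet R := by
    have h1 := Pool.Agent.H71.DST.analyticSet_proj hM
    have h2 : R = {x | ∃ y, (x, y) ∈ M} := by
      ext p
      constructor
      · rintro ⟨g, hg⟩
        exact ⟨(g, g.symm), fun n => g.symm_apply_apply n, fun n => g.apply_symm_apply n,
          fun i v => hg i v⟩
      · rintro ⟨⟨g, h⟩, hgh, hhg, hq⟩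
        exact ⟨⟨g, h, hgh, hhg⟩, fun i v => hq i v⟩
    rw [h2]
    exact h1
  obtain ⟨f, hfc, -, hf⟩ := Pool.Agent.H71.DST.exists_perfect_of_countable_sections hR
    (fun x => hcount x)
  refine ⟨fun u => F (f u), hF.comp hfc.measurable, fun u => hA _, ?_⟩
  intro u v huv h
  exact hf v u huv.symm h

end Pool.Agent.H67.TU
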